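import Pool.Agent.NAW.Fin
import Pool.Agent.Nav.PerfA
import Pool.Agent.Nav.Main3

/-!
# NAH-Her : extensions by `p`-groups (MP_549525_al)

If AWC holds for all subgroups of `L`, `L ⊴ Γ` and `Γ/L` is a `p`-group, then Navarro's equality
holds for all pairs `K ⊴ H ≤ Γ` with `H/K` a `p`-group.
-/

namespace Pool.Agent.NAH

open Pool.Agent.Nav Pool.Agent.NAW

universe u v

theorem awc_congr (p : ℕ) [Fact p.Prime] (k : Type v) [Field k] [IsAlgClosed k] [CharP k p]
    {H H' : Type u} [Group H] [Group H'] [Finite H] (e : H ≃* H') (h : AWC p k H) : AWC p k H' := by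
  have : Finite H' := Finite.of_equiv H e.toEquiv
  rw [awc_iff p k] at h ⊢
  rw [← defc_congr p e]
  exact h

/-- elementwise form of `IsPGroup` for a quotient -/
theorem isPGroup_quot_iff (p : ℕ) {Γ : Type u} [Group Γ] (G : Subgroup Γ) [G.Normal] :
    IsPGroup p (Γ ⧸ G) ↔ ∀ g : Γ, ∃ n : ℕ, g ^ p ^ n ∈ G := by
  constructor
  · intro h g
    obtain ⟨n, hn⟩ := h (QuotientGroup.mk g)
    refine ⟨n, ?_⟩
    rwa [← QuotientGroup.mk_pow, QuotientGroup.eq_one_iff] at hn
  · intro h x
    obtain ⟨g, rfl⟩ := QuotientGroup.mk_surjective x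
    obtain ⟨n, hn⟩ := h g
    exact ⟨n, by rwa [← QuotientGroup.mk_pow, QuotientGroup.eq_one_iff]⟩

/-- the case `H = Γ` -/
theorem her0 (p : ℕ) [Fact p.Prime] (k : Type v) [Field k] [IsAlgClosed k] [CharP k p]
    (Γ : Type u) [Group Γ] [Finite Γ] (L : Subgroup Γ) [L.Normal] (hL : IsPGroup p (Γ ⧸ L))
    (hA : ∀ H : Subgroup Γ, H ≤ L → AWC p k H) (K : Subgroup Γ) [K.Normal]
    (hK : IsPGroup p (Γ ⧸ K)) : Navarro p k K := by
  rw [nav_iff p k Γ K hK]
  have hLK : IsPGroup p (Γ ⧸ (L ⊓ K)) := by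
    rw [isPGroup_quot_iff] at hL hK ⊢
    intro g
    obtain ⟨n, hn⟩ := hL g
    obtain ⟨m, hm⟩ := hK g
    refine ⟨n + m, ?_, ?_⟩
    · rw [pow_add, pow_mul]
      exact L.pow_mem hn _
    · rw [pow_add, mul_comm, pow_mul]
      exact K.pow_mem hm _
  refine lift_eq p (L ⊓ K) K inf_le_right hLK ?_
  intro H hH
  have hp := isPGroup_sub p (L ⊓ K) H hH hLK
  rw [← nav_iff p k H ((L ⊓ K).subgroupOf H) hp]
  refine final2 p k H _ hp fun c _ => ?_
  -- a subgroup of `L`, up to isomorphism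
  set X : Subgroup H := (L ⊓ K).subgroupOf H ⊓ Nz c with hX
  have hle : X.map H.subtype ≤ L := by
    rintro _ ⟨x, hx, rfl⟩
    exact hx.1.1
  exact awc_congr p k (X.equivMapOfInjective H.subtype H.subtype_injective).symm (hA _ hle)

/-- all pairs inside `Γ` -/
theorem her (p : ℕ) [Fact p.Prime] (k : Type v) [Field k] [IsAlgClosed k] [CharP k p]
    (Γ : Type u) [Group Γ] [Finite Γ] (L : Subgroup Γ) [L.Normal] (hL : IsPGroup p (Γ ⧸ L))
    (hA : ∀ H : Subgroup Γ, H ≤ L → AWC p k H) (H : Subgroup Γ) (K : Subgroup H) [K.Normal]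
    (hK : IsPGroup p (H ⧸ K)) : Navarro p k K := by
  refine her0 p k H (L.subgroupOf H) ?_ ?_ K hK
  · rw [isPGroup_quot_iff] at hL ⊢
    intro g
    obtain ⟨n, hn⟩ := hL g
    exact ⟨n, by rw [Subgroup.mem_subgroupOf]; simpa using hn⟩
  · intro X hX
    refine awc_congr p k (X.equivMapOfInjective H.subtype H.subtype_injective).symm (hA _ ?_)
    rintro _ ⟨x, hx, rfl⟩
    exact hX hx

theorem awc_of_navarro_top (p : ℕ) [Fact p.Prime] (k : Type v) [Field k] [IsAlgClosed k]
    [CharP k p] (H : Type u) [Group H] [Finite H] : Navarro p k (⊤ : Subgroup H) ↔ AWC p k H := by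
  rw [nav_top_iff p k H, awc_iff' p k H]

/-- the class of groups all of whose subgroups satisfy AWC is closed under `p`-extensions -/
theorem her_awc (p : ℕ) [Fact p.Prime] (k : Type v) [Field k] [IsAlgClosed k] [CharP k p]
    (Γ : Type u) [Group Γ] [Finite Γ] (L : Subgroup Γ) [L.Normal] (hL : IsPGroup p (Γ ⧸ L))
    (hA : ∀ H : Subgroup Γ, H ≤ L → AWC p k H) (H : Subgroup Γ) : AWC p k H :=
  (awc_of_navarro_top p k H).1 (her p k Γ L hL hA H ⊤ (isPGroup_top p H))

/-- (B) -/
theorem her_iff (p : ℕ) [Fact p.Prime] (k : Type v) [Field k] [IsAlgClosed k] [CharP k p]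
    (Γ : Type u) [Group Γ] [Finite Γ] (L : Subgroup Γ) [L.Normal] (hL : IsPGroup p (Γ ⧸ L)) :
    (∀ H : Subgroup Γ, H ≤ L → AWC p k H) ↔
      ∀ (H : Subgroup Γ) (K : Subgroup H) [K.Normal], IsPGroup p (H ⧸ K) → Navarro p k K := by
  constructor
  · intro hA H K _ hK
    exact her p k Γ L hL hA H K hK
  · intro h H _
    exact (awc_of_navarro_top p k H).1 (h H ⊤ (isPGroup_top p H))

/-- a minimal counterexample to AWC is `p`-perfect and has no normal `p`-subgroup -/
theorem awc_all (p : ℕ) [Fact p.Prime] (k : Type v) [Field k] [IsAlgClosed k] [CharP k p]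
    (h : ∀ (H : Type u) [Group H] [Finite H], PPerfect p H → OpTriv p H → AWC p k H) (n : ℕ) :
    ∀ (H : Type u) [Group H] [Finite H], Nat.card H = n → AWC p k H := by
  induction n using Nat.strong_induction_on with
  | _ n ih =>
    intro H _ _ hn
    by_cases h1 : OpTriv p H
    · by_cases h2 : PPerfect p H
      · exact h H h2 h1
      · unfold PPerfect at h2
        push Not at h2
        obtain ⟨N, hN, hi⟩ := h2
        have hlt : ∀ X : Subgroup H, X ≤ N → Nat.card X < n := by
          intro X hX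
          have h3 : Nat.card N * p = n := by rw [← hn, ← N.card_mul_index, hi]
          have h4 : Nat.card X ≤ Nat.card N := Subgroup.card_le_of_le hX
          have h5 : 0 < Nat.card N := Nat.card_pos
          have h6 := (Fact.out : p.Prime).two_le
          nlinarith
        have hp : IsPGroup p (H ⧸ N) := (isPGroup_iff_index p N).2 ⟨1, by rw [hi, pow_one]⟩
        refine (awc_of_navarro_top p k H).1 (her0 p k H N hp ?_ ⊤ (isPGroup_top p H))
        intro X hX
        exact ih _ (hlt X hX) X rfl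
    · unfold OpTriv at h1
      push Not at h1
      obtain ⟨Z, hZn, hZp, hZ⟩ := h1
      rw [awc_iff p k, ← defc_quot p Z hZp, ← awc_iff p k]
      refine ih _ ?_ _ rfl
      rw [← hn, Z.card_eq_card_quotient_mul_card_subgroup]
      have h3 : 1 < Nat.card Z := by
        rw [Subgroup.one_lt_card_iff_ne_bot]
        exact hZ
      have h4 : 0 < Nat.card (H ⧸ Z) := Nat.card_pos
      nlinarith

/-- (A) -/
theorem perf_iff (p : ℕ) [Fact p.Prime] (k : Type v) [Field k] [IsAlgClosed k] [CharP k p] :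
    (∀ (Γ : Type u) [Group Γ] [Finite Γ] (G : Subgroup Γ) [G.Normal],
      IsPGroup p (Γ ⧸ G) → Navarro p k G) ↔
    ∀ (H : Type u) [Group H] [Finite H], PPerfect p H → OpTriv p H → AWC p k H := by
  rw [final6 p k]
  constructor
  · intro h H _ _ _ _
    exact h H
  · intro h H _ _
    exact awc_all p k h _ H rfl

end Pool.Agent.NAH
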