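import Pool.Agent.NAH.PCl

/-!
# NAH-Loc : the local criterion (MP_549525_al)
-/

namespace Pool.Agent.NAH

open Pool.Agent.Nav Pool.Agent.NAW

universe u v

/-- If for every `Q ∈ Θ` some normal subgroup `L` of `p`-power index of `N_G(Q)` has only subgroups
satisfying AWC, then Navarro's equality holds for `G ⊴ Γ`. -/
theorem loc_awc (p : ℕ) [Fact p.Prime] (k : Type v) [Field k] [IsAlgClosed k] [CharP k p]
    (Γ : Type u) [Group Γ] [Finite Γ] (G : Subgroup Γ) [G.Normal] (hp : IsPGroup p (Γ ⧸ G))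
    (h : ∀ Q ∈ Theta p G, ∃ (L : Subgroup (G ⊓ Nm Q : Subgroup Γ)) (_ : L.Normal),
      IsPGroup p ((G ⊓ Nm Q : Subgroup Γ) ⧸ L) ∧ ∀ X : Subgroup L, AWC p k X) :
    Navarro p k G := by
  refine final2 p k Γ G hp fun c hc => ?_
  have h1 := top_mem hc.1
  obtain ⟨L, hLn, hL, hA⟩ := h _ (hc.1.2.1 _ h1)
  have hle : G ⊓ Nz c ≤ G ⊓ Nm (top c) := inf_le_inf_left G (Nz_le h1)
  have h2 := her_awc p k (G ⊓ Nm (top c) : Subgroup Γ) L hL (fun X hX =>
    awc_congr p k (Subgroup.subgroupOfEquivOfLe hX) (hA (X.subgroupOf L)))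
    ((G ⊓ Nz c).subgroupOf (G ⊓ Nm (top c)))
  exact awc_congr p k (Subgroup.subgroupOfEquivOfLe hle) h2

/-- AWC for all subgroups of the groups `H` with `O_{p,p',p}(H) = H` -/
theorem awc_ppp (p : ℕ) [Fact p.Prime] (k : Type v) [Field k] [IsAlgClosed k] [CharP k p]
    (H : Type u) [Group H] [Finite H] (L : Subgroup H) [L.Normal] (hL : IsPGroup p (H ⧸ L))
    (S : Subgroup L) [S.Normal] (hS : IsPGroup p S) (hi : ¬ p ∣ S.index) (X : Subgroup H) :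
    AWC p k X :=
  her_awc p k H L hL (fun X hX =>
    awc_congr p k (Subgroup.subgroupOfEquivOfLe hX) (awc_pcl_sub p k S hS hi (X.subgroupOf L))) X

/-- the unconditional local criterion -/
theorem loc_pcl (p : ℕ) [Fact p.Prime] (k : Type v) [Field k] [IsAlgClosed k] [CharP k p]
    (Γ : Type u) [Group Γ] [Finite Γ] (G : Subgroup Γ) [G.Normal] (hp : IsPGroup p (Γ ⧸ G))
    (h : ∀ Q ∈ Theta p G, ∃ (L : Subgroup (G ⊓ Nm Q : Subgroup Γ)) (_ : L.Normal),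
      IsPGroup p ((G ⊓ Nm Q : Subgroup Γ) ⧸ L) ∧
        ∃ S : Subgroup L, S.Normal ∧ IsPGroup p S ∧ ¬ p ∣ S.index) :
    Navarro p k G := by
  refine loc_awc p k Γ G hp fun Q hQ => ?_
  obtain ⟨L, hLn, hL, S, hSn, hS, hi⟩ := h Q hQ
  exact ⟨L, hLn, hL, fun X => awc_pcl_sub p k S hS hi X⟩

/-- both criteria in one statement -/
theorem loc_or (p : ℕ) [Fact p.Prime] (k : Type v) [Field k] [IsAlgClosed k] [CharP k p]
    (Γ : Type u) [Group Γ] [Finite Γ] (G : Subgroup Γ) [G.Normal] (hp : IsPGroup p (Γ ⧸ G))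
    (h : ∀ Q ∈ Theta p G, ∃ (L : Subgroup (G ⊓ Nm Q : Subgroup Γ)) (_ : L.Normal),
      IsPGroup p ((G ⊓ Nm Q : Subgroup Γ) ⧸ L) ∧
        ((∃ S : Subgroup L, S.Normal ∧ IsPGroup p S ∧ ¬ p ∣ S.index) ∨
          ∀ X : Subgroup L, AWC p k X)) :
    Navarro p k G := by
  refine loc_awc p k Γ G hp fun Q hQ => ?_
  obtain ⟨L, hLn, hL, h1⟩ := h Q hQ
  refine ⟨L, hLn, hL, ?_⟩
  rcases h1 with ⟨S, hSn, hS, hi⟩ | h1
  · exact fun X => awc_pcl_sub p k S hS hi X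
  · exact h1

end Pool.Agent.NAH
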