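import Pool.Agent.NAH.Her
import Pool.Agent.Nav.CInt
import Pool.Agent.Nav.Dens

/-!
# NAH-PCl : AWC for groups with a normal Sylow `p`-subgroup (MP_549525_al)
-/

namespace Pool.Agent.NAH

open Pool.Agent.Nav Pool.Agent.NAW

universe u v

section

variable (H : Type u) [Group H]

/-- the class functions -/
def clSub : Submodule ℂ (MonoidAlgebra ℂ H) where
  carrier := {z | IsCl z}
  add_mem' := by
    intro a b ha hb h x
    rw [MonoidAlgebra.coeff_add, Finsupp.add_apply, Finsupp.add_apply, ha h x, hb h x]
  zero_mem' := by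
    intro h x
    simp
  smul_mem' := by
    intro c a ha h x
    rw [MonoidAlgebra.coeff_smul, Finsupp.smul_apply, Finsupp.smul_apply, ha h x]

variable {H}

theorem mem_clSub {z : MonoidAlgebra ℂ H} : z ∈ clSub H ↔ IsCl z := Iff.rfl

/-- class functions as functions on the classes -/
noncomputable def clEquiv [Finite H] : clSub H ≃ₗ[ℂ] (ConjClasses H → ℂ) where
  toFun z C := z.1.coeff (Quotient.out C)
  map_add' a b := by
    ext C
    rw [Submodule.coe_add, MonoidAlgebra.coeff_add, Finsupp.add_apply]
    rfl
  map_smul' c a := by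
    ext C
    rw [Submodule.coe_smul, MonoidAlgebra.coeff_smul, Finsupp.smul_apply]
    rfl
  invFun f := ⟨ga fun x => f (ConjClasses.mk x), by
    intro h x
    rw [ga_coeff, ga_coeff]
    congr 1
    rw [ConjClasses.mk_eq_mk_iff_isConj]
    exact (isConj_iff.2 ⟨h, rfl⟩).symm⟩
  left_inv z := by
    apply Subtype.ext
    apply ga_ext
    intro x
    rw [ga_coeff]
    have h1 : ConjClasses.mk (Quotient.out (ConjClasses.mk x)) = ConjClasses.mk x :=
      Quotient.out_eq _
    rw [ConjClasses.mk_eq_mk_iff_isConj, isConj_iff] at h1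
    obtain ⟨g, hg⟩ := h1
    have h2 := z.2 g (Quotient.out (ConjClasses.mk x))
    rw [hg] at h2
    exact h2.symm
  right_inv f := by
    ext C
    simp only [ga_coeff]
    congr 1
    exact Quotient.out_eq C

open Classical in
/-- class functions as functions on the irreducible characters -/
noncomputable def omEquiv [Finite H] [Fintype (IrrClass ℂ H)] :
    clSub H ≃ₗ[ℂ] (IrrClass ℂ H → ℂ) :=
  LinearEquiv.ofBijective
    { toFun := fun z c => om c z.1
      map_add' := fun a b => by
        ext c
        exact om_add c _ _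
      map_smul' := fun t a => by
        ext c
        exact om_smul c _ _ } (by
    constructor
    · rw [injective_iff_map_eq_zero]
      intro z hz
      apply Subtype.ext
      exact om_complete z.1 z.2 fun c => congrFun hz c
    · intro f
      refine ⟨⟨∑ c, f c • ei c, ?_⟩, ?_⟩
      · exact Submodule.sum_mem (clSub H) fun c _ =>
          (clSub H).smul_mem _ (mem_clSub.2 (isCl_ei c))
      · ext d
        have h1 : om d (∑ c, f c • ei c) = ∑ c, om d (f c • ei c) := by
          have h2 : ∀ s : Finset (IrrClass ℂ H), om d (∑ c ∈ s, f c • ei c) =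
              ∑ c ∈ s, om d (f c • ei c) := by
            intro s
            induction s using Finset.induction_on with
            | empty =>
              have := om_smul d 0 (0 : MonoidAlgebra ℂ H)
              simpa using this
            | insert a s ha ih => rw [Finset.sum_insert ha, Finset.sum_insert ha, om_add, ih]
          exact h2 Finset.univ
        change om d (∑ c, f c • ei c) = f d
        rw [h1]
        simp only [om_smul, om_ei]
        simp)

/-- the number of irreducible complex representations is the number of classes -/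
theorem card_irr_C [Finite H] : Nat.card (IrrClass ℂ H) = Nat.card (ConjClasses H) := by
  have h0 : Finite (IrrClass ℂ H) := finite_irr ℂ H
  have := Fintype.ofFinite (IrrClass ℂ H)
  have := Fintype.ofFinite (ConjClasses H)
  have h1 := (omEquiv (H := H)).finrank_eq
  have h2 := (clEquiv (H := H)).finrank_eq
  rw [Module.finrank_fintype_fun_eq_card] at h1 h2
  rw [Nat.card_eq_fintype_card, Nat.card_eq_fintype_card]
  exact h1.symm.trans h2

/-- in a `p'`-group all irreducible representations have defect zero -/
theorem dz_p' (p : ℕ) [Fact p.Prime] [Finite H] (h : ¬ p ∣ Nat.card H) :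
    dz p H = Nat.card (ConjClasses H) := by
  obtain ⟨B, hB⟩ := exists_val p
  rw [← card_irr_C, dz_eq]
  refine Nat.card_congr (Equiv.subtypeUnivEquiv fun c => ?_)
  by_contra hc
  have h1 := val_ndz B hB c hc
  have h2 : B.valuation (Nat.card H : ℂ) = 1 := val_nat p B hB _ h
  have h3 := val_nat_le B (degc c)
  have h4 : B.valuation (degc c : ℂ) ≠ 0 := by
    have : (degc c : ℂ) ≠ 0 := by exact_mod_cast (degc_pos c).ne'
    simpa using this
  rw [map_div₀, h2, div_lt_one₀ (zero_lt_iff.2 h4)] at h1
  exact absurd h3 (not_le.2 h1)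

/-- `N_H(1)/1 ≃ H` -/
theorem NQ_bot (H : Type u) [Group H] : Nonempty (NQ (⊥ : Subgroup H) ≃* H) := by
  have h1 : Nm (⊥ : Subgroup H) = ⊤ := Subgroup.normalizer_eq_top_iff.2 inferInstance
  have h2 : (⊥ : Subgroup H).subgroupOf (Nm (⊥ : Subgroup H)) = ⊥ := Subgroup.bot_subgroupOf _
  refine ⟨((QuotientGroup.quotientMulEquivOfEq h2).trans QuotientGroup.quotientBot).trans ?_⟩
  exact (MulEquiv.subgroupCongr h1).trans Subgroup.topEquiv

theorem weights_p' (p : ℕ) [Fact p.Prime] [Finite H] (h : ¬ p ∣ Nat.card H) :
    weights p (⊤ : Subgroup H) = dz p H := by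
  have hS : {Q : Subgroup H | IsPGroup p Q} = {⊥} := by
    ext Q
    rw [Set.mem_ofPred_eq, Set.mem_singleton_iff]
    constructor
    · intro hQ
      obtain ⟨n, hn⟩ := IsPGroup.iff_card.1 hQ
      rcases Nat.eq_zero_or_pos n with rfl | hn0
      · exact Subgroup.eq_bot_of_card_eq Q (by rw [hn, pow_zero])
      · exact absurd ((dvd_pow_self p hn0.ne').trans (hn ▸ Subgroup.card_subgroup_dvd_card Q)) h
    · rintro rfl
      exact IsPGroup.of_bot
  have h1 := card_mul_wSum p {Q : Subgroup H | IsPGroup p Q} (by
    intro Q hQ g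
    exact IsPGroup.map hQ _)
  rw [weights_top]
  rw [hS, finsum_mem_singleton] at h1
  obtain ⟨e⟩ := NQ_bot H
  have h2 : Nm (⊥ : Subgroup H) = ⊤ := Subgroup.normalizer_eq_top_iff.2 inferInstance
  rw [dz_congr p e, h2, Subgroup.card_top] at h1
  rw [hS]
  exact Nat.eq_of_mul_eq_mul_left Nat.card_pos h1

theorem creg_p' (p : ℕ) [Fact p.Prime] [Finite H] (h : ¬ p ∣ Nat.card H) :
    creg p (⊤ : Subgroup H) = Nat.card (ConjClasses H) := by
  unfold creg cregM
  refine Nat.card_congr (Equiv.subtypeUnivEquiv fun c x _ => ⟨?_, ?_⟩)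
  · intro hx
    exact h (hx.trans (orderOf_dvd_natCard x))
  · exact top_sup_eq _

/-- AWC for `p'`-groups -/
theorem awc_p' (p : ℕ) [Fact p.Prime] (k : Type v) [Field k] [IsAlgClosed k] [CharP k p]
    [Finite H] (h : ¬ p ∣ Nat.card H) : AWC p k H := by
  rw [awc_iff' p k H, creg_p' p h, weights_p' p h, dz_p' p h]

/-- AWC for groups with a normal Sylow `p`-subgroup -/
theorem awc_pcl (p : ℕ) [Fact p.Prime] (k : Type v) [Field k] [IsAlgClosed k] [CharP k p]
    [Finite H] (S : Subgroup H) [S.Normal] (hS : IsPGroup p S) (h : ¬ p ∣ S.index) :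
    AWC p k H := by
  rw [awc_iff p k, ← defc_quot p S hS, ← awc_iff p k]
  exact awc_p' p k h

/-- subgroups of groups with a normal Sylow `p`-subgroup -/
theorem awc_pcl_sub (p : ℕ) [Fact p.Prime] (k : Type v) [Field k] [IsAlgClosed k] [CharP k p]
    [Finite H] (S : Subgroup H) [S.Normal] (hS : IsPGroup p S) (h : ¬ p ∣ S.index)
    (X : Subgroup H) : AWC p k X := by
  refine awc_pcl p k (S.subgroupOf X) ?_ ?_
  · exact hS.comap_of_injective X.subtype X.subtype_injective
  · intro h1
    have h2 : (S.subgroupOf X).index ∣ S.index := by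
      change S.relIndex X ∣ S.index
      exact Subgroup.relIndex_dvd_index_of_normal S X
    exact h (h1.trans h2)

end

end Pool.Agent.NAH
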